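import Pool.Agent.Helper37_CAP.Fin2

/-!
# Orders of cyclic affine planes: the structure of composite orders

All nonprime orders `n ≤ X` of cyclic affine planes but `C X exp (- c √(log X))` satisfy
`n + 1 = (m + 1) q` and `n - 1 = (m - 1) q'` with primes `q`, `q'` and
`2 ≤ m ≤ exp (c √(log X))`.
-/

set_option autoImplicit false

namespace Pool.Agent.Results.MP_a03075_co.CompositeOrders

open Pool.Agent.CAP

/-- Nonprime orders `n` of cyclic affine planes with few exceptions satisfy `n + 1 = (m + 1) q`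
and `n - 1 = (m - 1) q'` for a small number `m` and primes `q`, `q'`. -/
theorem result :
    ∃ c C : ℝ, 0 < c ∧ ∀ X : ℕ, 2 ≤ X →
      ({n : ℕ | n ≤ X ∧ IsOrder n ∧ ¬ n.Prime ∧
        ¬ ∃ m q q' : ℕ, 2 ≤ m ∧ (m : ℝ) ≤ Real.exp (c * Real.sqrt (Real.log X)) ∧ q.Prime ∧
          q'.Prime ∧ n + 1 = (m + 1) * q ∧ n - 1 = (m - 1) * q'}.ncard : ℝ) ≤
        C * X * Real.exp (-(c * Real.sqrt (Real.log X))) :=
  H37.structure_thm

end Pool.Agent.Results.MP_a03075_co.CompositeOrders
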