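import Pool.Agent.Helper37_CAP.Fin2

/-!
# Orders of cyclic affine planes: composite orders are rare

A finite affine plane is cyclic if some collineation fixes a point and its powers act transitively
on the other points. The number of `n ≤ X` that are orders of cyclic affine planes differs from
the number of primes up to `X` by at most `C X / (log X) ^ 2`.
-/

set_option autoImplicit false

namespace Pool.Agent.Results.MP_a03075_co.RareComposite

open Pool.Agent.CAP

/-- The number of orders `n ≤ X` of cyclic affine planes is `π(X) + O(X / (log X) ^ 2)`. -/
theorem result :
    ∃ C : ℝ, ∀ X : ℕ, 2 ≤ X →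
      |({n : ℕ | n ≤ X ∧ IsOrder n}.ncard : ℝ) - Nat.primeCounting X| ≤
        C * X / Real.log X ^ 2 :=
  H37.rare

end Pool.Agent.Results.MP_a03075_co.RareComposite
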